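import Pool.Agent.KS6_44.UU.Growth

/-!
# `SL(n, ℤ) = U U⁻ U U⁻` for all `n ≥ 26`, so `L(A_{n-1}) = 2`

`U n` and `Um n` are the groups of upper and lower unitriangular matrices in `SL(n, ℤ)`, as sets.
-/

namespace Pool.Agent.Results.MP_755cca_al.TypeALargeRank

open Matrix Pointwise
open Pool.Agent.KS6_44.UU

/-- Upper unitriangular matrices: `U(A_{n-1}, ℤ)`. -/
def U (n : ℕ) : Set (SpecialLinearGroup (Fin n) ℤ) :=
  {g | (∀ i, g i i = 1) ∧ ∀ i j, j < i → g i j = 0}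

/-- Lower unitriangular matrices: `U⁻(A_{n-1}, ℤ)`. -/
def Um (n : ℕ) : Set (SpecialLinearGroup (Fin n) ℤ) :=
  {g | (∀ i, g i i = 1) ∧ ∀ i j, i < j → g i j = 0}

lemma mem_of_good {n : ℕ} (A : SpecialLinearGroup (Fin n) ℤ) (h : Good (A : Mat n n)) :
    A ∈ (U n * Um n) ^ 2 := by
  obtain ⟨u, v, l, r, hu, hv, hl, hr, e⟩ := h
  obtain ⟨u', hu', u1, u1'⟩ := hu.inv
  obtain ⟨v', hv', v1, v1'⟩ := hv.inv
  let a1 : SpecialLinearGroup (Fin n) ℤ := ⟨u', hu'.det⟩
  let a2 : SpecialLinearGroup (Fin n) ℤ := ⟨l, hl.det⟩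
  let a3 : SpecialLinearGroup (Fin n) ℤ := ⟨r, hr.det⟩
  let a4 : SpecialLinearGroup (Fin n) ℤ := ⟨v', hv'.det⟩
  have h1 : a1 ∈ U n := hu'
  have h2 : a2 ∈ Um n := hl
  have h3 : a3 ∈ U n := hr
  have h4 : a4 ∈ Um n := hv'
  have hA : A = a1 * a2 * (a3 * a4) := by
    apply Matrix.SpecialLinearGroup.ext
    have : (A : Mat n n) = u' * l * (r * v') := by
      calc (A : Mat n n) = (u' * u) * A * (v * v') := by
            rw [u1', v1, Matrix.one_mul, Matrix.mul_one]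
        _ = u' * (u * A * v) * v' := by simp only [Matrix.mul_assoc]
        _ = u' * l * (r * v') := by rw [e]; simp only [Matrix.mul_assoc]
    intro i j
    exact congrFun (congrFun this i) j
  rw [pow_two, hA]
  exact Set.mul_mem_mul (Set.mul_mem_mul h1 h2) (Set.mul_mem_mul h3 h4)

lemma last_entry {n : ℕ} {g : SpecialLinearGroup (Fin (n + 1)) ℤ} (h : g ∈ U (n + 1) * Um (n + 1)) :
    g (Fin.last n) (Fin.last n) = 1 := by
  obtain ⟨u, hu, v, hv, rfl⟩ := Set.mem_mul.1 h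
  have e : (u * v : SpecialLinearGroup (Fin (n + 1)) ℤ) (Fin.last n) (Fin.last n) =
      ((u : Mat (n + 1) (n + 1)) * (v : Mat (n + 1) (n + 1))) (Fin.last n) (Fin.last n) := rfl
  rw [e, Matrix.mul_apply, Finset.sum_eq_single (Fin.last n)]
  · rw [hu.1, hv.1, one_mul]
  · intro k _ hk
    rw [hu.2 _ _ (lt_of_le_of_ne (Fin.le_last k) hk), zero_mul]
  · intro h; exact absurd (Finset.mem_univ _) h

/-- **Theorem.** For every `n ≥ 26` the least positive `L` with `SL(n, ℤ) = (U U⁻)^L` is `2`. -/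
theorem result (n : ℕ) (hn : 26 ≤ n) :
    IsLeast {L : ℕ | 0 < L ∧ (U n * Um n) ^ L = Set.univ} 2 := by
  refine ⟨⟨by norm_num, Set.eq_univ_of_forall fun A =>
    mem_of_good A (good_of_26_le hn _ A.det_coe)⟩, ?_⟩
  rintro L ⟨hL, hLu⟩
  by_contra hlt
  have h1 : L = 1 := by omega
  subst h1
  obtain ⟨m, rfl⟩ : ∃ m, n = m + 2 := ⟨n - 2, by omega⟩
  have hne : (Fin.last (m + 1)) ≠ 0 := Fin.last_pos.ne'
  let g : SpecialLinearGroup (Fin (m + 2)) ℤ :=
    ⟨transvection (Fin.last (m + 1)) 0 1 * transvection 0 (Fin.last (m + 1)) 1, by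
      rw [Matrix.det_mul, det_transvection_of_ne _ _ hne, det_transvection_of_ne _ _ hne.symm,
        one_mul]⟩
  have hg : g ∈ U (m + 2) * Um (m + 2) := by
    rw [pow_one] at hLu; rw [hLu]; exact Set.mem_univ g
  have h2 := last_entry hg
  have h3 : g (Fin.last (m + 1)) (Fin.last (m + 1)) = 2 := by
    change (transvection (Fin.last (m + 1)) 0 1 * transvection 0 (Fin.last (m + 1)) 1 :
      Matrix _ _ ℤ) (Fin.last (m + 1)) (Fin.last (m + 1)) = 2
    rw [transvection_mul_apply_same]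
    simp [transvection]
  rw [h3] at h2
  norm_num at h2

end Pool.Agent.Results.MP_755cca_al.TypeALargeRank
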