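import Pool.Agent.KS6_44.UU.FkH

/-!
# `G(B_n, ℤ) = Spin(n+1, n)(ℤ) = U U⁻ U U⁻` for all `n ≥ 26`, so `L(B_n) = 2`

The simply connected Chevalley group `G(B_n, ℤ)` is generated by the root elements
`x_α(t) = exp(t e_α)` (`α` a root, `t ∈ ℤ`) on an admissible lattice of a representation whose
weights span the whole weight lattice. We use the spin representation: the fermionic Fock space with
basis `e_B`, `B ⊆ {0, …, n-1}`, over `ℤ`, with the creation matrices `cr i`, the annihilation
matrices `an i` and the parity `par` (`Pool.Agent.KS6_44.UU.Defs`). Its weights are all the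
`½(± ε_1 ± … ± ε_n)`, which span the weight lattice. The root elements are

* `x_{ε_i-ε_j}(t) = 1 + t • (cr i * an j)`, `i ≠ j`;
* `x_{ε_i+ε_j}(t) = 1 + t • (cr i * cr j)` and `x_{-ε_i-ε_j}(t) = 1 + t • (an i * an j)`, `i < j`;
* `x_{ε_i}(t) = 1 + t • (cr i * par)` and `x_{-ε_i}(t) = 1 + t • (an i * par)`.

The positive roots are `ε_i - ε_j`, `ε_i + ε_j` (`i < j`) and `ε_i`.
-/

namespace Pool.Agent.Results.MP_755cca_al.TypeBLargeRank

open Matrix Pointwise
open Pool.Agent.KS6_44.UU

/-- `U(B_n, ℤ)`, generated by the positive root elements. -/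
def U (n : ℕ) : Subgroup (FM n)ˣ := Subgroup.closure (posB n)

/-- `U⁻(B_n, ℤ)`, generated by the negative root elements. -/
def Um (n : ℕ) : Subgroup (FM n)ˣ := Subgroup.closure (negB n)

/-- `G(B_n, ℤ)`, generated by all root elements. -/
def G (n : ℕ) : Subgroup (FM n)ˣ := Subgroup.closure (posB n ∪ negB n)

/-- **Theorem.** For every `n ≥ 26` the least positive `L` with `G(B_n, ℤ) = (U U⁻)^L` is `2`. -/
theorem result (n : ℕ) (hn : 26 ≤ n) :
    IsLeast {L : ℕ | 0 < L ∧
      ((U n : Set (FM n)ˣ) * (Um n : Set (FM n)ˣ)) ^ L = (G n : Set (FM n)ˣ)} 2 :=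
  isLeast_two (by omega) subset_rfl subset_rfl Set.subset_union_left Set.subset_union_left
    fun _ hg => B_main hn hg

end Pool.Agent.Results.MP_755cca_al.TypeBLargeRank
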