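import Pool.Agent.KS6_44.UU.SpC

/-!
# `Sp(2n, ℤ) = U U⁻ U U⁻` for all `n ≥ 26`, so `L(C_n) = 2`

`Sp(2n, ℤ)` is Mathlib's `Matrix.symplecticGroup (Fin n) ℤ`, the simply connected Chevalley group of
type `C_n`. With the standard positive roots `e_i - e_j` (`i < j`), `e_i + e_j`, `2 e_i`, the group
`U` consists of the symplectic block matrices `(a b; 0 d)` with `a` upper unitriangular and `U⁻` of
the symplectic block matrices `(a 0; c d)` with `a` lower unitriangular.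
-/

namespace Pool.Agent.Results.MP_755cca_al.TypeCLargeRank

open Matrix Pointwise
open Pool.Agent.KS6_44.UU

/-- `U(C_n, ℤ)`: block matrices `(a b; 0 d)` in `Sp(2n, ℤ)` with `a` upper unitriangular. -/
def U (n : ℕ) : Set (symplecticGroup (Fin n) ℤ) :=
  {g | (∀ i j, g.1 (Sum.inr i) (Sum.inl j) = 0) ∧ (∀ i, g.1 (Sum.inl i) (Sum.inl i) = 1) ∧
    ∀ i j, j < i → g.1 (Sum.inl i) (Sum.inl j) = 0}

/-- `U⁻(C_n, ℤ)`: block matrices `(a 0; c d)` in `Sp(2n, ℤ)` with `a` lower unitriangular. -/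
def Um (n : ℕ) : Set (symplecticGroup (Fin n) ℤ) :=
  {g | (∀ i j, g.1 (Sum.inl i) (Sum.inr j) = 0) ∧ (∀ i, g.1 (Sum.inl i) (Sum.inl i) = 1) ∧
    ∀ i j, i < j → g.1 (Sum.inl i) (Sum.inl j) = 0}

lemma mem_U {n : ℕ} {g : symplecticGroup (Fin n) ℤ} (h : SpU g) : g ∈ U n := by
  obtain ⟨u, u', S, hu, -, -, e⟩ := h
  rw [fromBlocks_multiply] at e
  simp only [Matrix.one_mul, Matrix.zero_mul, Matrix.mul_zero, add_zero, zero_add] at e
  refine ⟨fun i j => ?_, fun i => ?_, fun i j hij => ?_⟩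
  · rw [e, fromBlocks_apply₂₁]; rfl
  · rw [e, fromBlocks_apply₁₁]; exact hu.1 i
  · rw [e, fromBlocks_apply₁₁]; exact hu.2 i j hij

lemma mem_Um {n : ℕ} {g : symplecticGroup (Fin n) ℤ} (h : SpL g) : g ∈ Um n := by
  obtain ⟨u, u', S, hu, -, -, e⟩ := h
  rw [fromBlocks_multiply] at e
  simp only [Matrix.one_mul, Matrix.zero_mul, Matrix.mul_zero, add_zero, zero_add] at e
  refine ⟨fun i j => ?_, fun i => ?_, fun i j hij => ?_⟩
  · rw [e, fromBlocks_apply₁₂]; rfl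
  · rw [e, fromBlocks_apply₁₁]; exact hu.1 i
  · rw [e, fromBlocks_apply₁₁]; exact hu.2 i j hij

/-- `J` is not in `U U⁻`. -/
lemma J_not_mem {n : ℕ} (hn : 0 < n) : SymplecticGroup.symJ (Fin n) ℤ ∉ U n * Um n := by
  intro h
  obtain ⟨x, hx, y, hy, e⟩ := Set.mem_mul.1 h
  obtain ⟨a, b, c, d, hxe⟩ : ∃ a b c d : Mat n n, x.1 = fromBlocks a b c d :=
    ⟨_, _, _, _, (fromBlocks_toBlocks x.1).symm⟩
  obtain ⟨a', b', c', d', hye⟩ : ∃ a b c d : Mat n n, y.1 = fromBlocks a b c d :=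
    ⟨_, _, _, _, (fromBlocks_toBlocks y.1).symm⟩
  have hc : c = 0 := by
    ext i j
    have := hx.1 i j
    rw [hxe, fromBlocks_apply₂₁] at this
    exact this
  have hb' : b' = 0 := by
    ext i j
    have := hy.1 i j
    rw [hye, fromBlocks_apply₁₂] at this
    exact this
  subst hc; subst hb'
  have hxm := x.2
  rw [hxe, SymplecticGroup.fromBlocks_mem_iff] at hxm
  have hym := y.2
  rw [hye, SymplecticGroup.fromBlocks_mem_iff] at hym
  obtain ⟨-, -, h3⟩ := hxm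
  obtain ⟨-, -, h6⟩ := hym
  rw [Matrix.transpose_zero, Matrix.zero_mul, sub_zero] at h3
  rw [Matrix.mul_zero, sub_zero] at h6
  have h6' : d' * a'ᵀ = 1 := mul_eq_one_comm.1 h6
  have e2 : x.1 * y.1 = J (Fin n) ℤ := by
    have := congrArg Subtype.val e
    simpa using this
  rw [hxe, hye, fromBlocks_multiply, J] at e2
  have e3 : 0 * 0 + d * d' = (0 : Mat n n) := (fromBlocks_inj.1 e2).2.2.2
  rw [Matrix.mul_zero, zero_add] at e3
  have e4 : (1 : Mat n n) = 0 := by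
    calc (1 : Mat n n) = aᵀ * d * (d' * a'ᵀ) := by rw [h3, h6', Matrix.mul_one]
      _ = aᵀ * (d * d') * a'ᵀ := by simp only [Matrix.mul_assoc]
      _ = 0 := by rw [e3]; simp
  have e5 := congrFun (congrFun e4 ⟨0, hn⟩) ⟨0, hn⟩
  rw [Matrix.one_apply_eq] at e5
  exact one_ne_zero e5

/-- **Theorem.** For every `n ≥ 26` the least positive `L` with `Sp(2n, ℤ) = (U U⁻)^L` is `2`. -/
theorem result (n : ℕ) (hn : 26 ≤ n) :
    IsLeast {L : ℕ | 0 < L ∧ (U n * Um n) ^ L = Set.univ} 2 := by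
  refine ⟨⟨by norm_num, Set.eq_univ_of_forall fun g => ?_⟩, ?_⟩
  · obtain ⟨x1, y1, x2, y2, h1, h2, h3, h4, e⟩ := sp_factor hn g
    rw [pow_two, e]
    exact Set.mul_mem_mul (Set.mul_mem_mul (mem_U h1) (mem_Um h2))
      (Set.mul_mem_mul (mem_U h3) (mem_Um h4))
  · rintro L ⟨hL, hLu⟩
    by_contra hlt
    have h1 : L = 1 := by omega
    subst h1
    rw [pow_one] at hLu
    exact J_not_mem (n := n) (by omega) (by rw [hLu]; exact Set.mem_univ _)

end Pool.Agent.Results.MP_755cca_al.TypeCLargeRank
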